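import Mathlib
import Pool.Agent.V11211.AT5

/-!
MP_8d62fb_al, Q1: the Addition Theorem for the algebraic entropy holds for every endomorphism of
every torsion quasihamiltonian group.

Idea.  For a finite subgroup `F` let `T_n = F·φ(F)⋯φ^{n-1}(F)` (a finite subgroup), let
`N = ⋃_j φ^{-j}(H)` (normal, `φ^{-1}(N) = N`) and `W_n = T_n ∩ N`.  The subgroups `F ∩ φ(T_n)` of
`F` stabilise, and so do the corresponding ones in `G/N`; counting with the product formula gives
an `m` with `W_{n+1} = W_{m+1}·φ(W_n)` for all `n ≥ m`.  So `W_{m+k}` is the trajectory of the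
finite subgroup `E = W_{m+1}` of `N`, and `|T_n| = |T_n N/N|·|W_n|` gives
`h(φ,F) ≤ h(φ on G/N, FN/N) + h(φ,E)`.  Finally `φ^j(E) ≤ H` for some `j`, with at least the same
growth, and `G/N` is a quotient of `G/H`.  The other inequality is elementary.
-/

namespace Pool.Agent.Results.MP_8d62fb_al.AdditionTheorem

open V11211.AT

universe u

theorem result {G : Type u} [Group G] (htor : ∀ g : G, IsOfFinOrder g)
    (hqh : Quasihamiltonian G) (φ : G →* G) (H : Subgroup G) [H.Normal] (hH : H ≤ H.comap φ) :
    halg φ = halg (QuotientGroup.map H H φ hH) + halg (restr φ H hH) :=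
  le_antisymm (halg_le hqh htor φ H hH) (le_halg hqh htor φ H hH)

end Pool.Agent.Results.MP_8d62fb_al.AdditionTheorem
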